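import Pool.Agent.W601.RP.Stm2

set_option autoImplicit false
open scoped Classical
open Filter Topology

namespace Pool.Agent.W856.RP

open Pool.Agent.W601.RP

noncomputable section

theorem gam_eq_zero (q : ℕ → ℕ) (t : ℕ) (h : q t / 2 = 0) : gam q t = 0 := by
  unfold gam
  rw [h]
  simp

theorem four_le_M (i : ℕ) : 4 ≤ M i := by
  unfold M N
  have := Nat.factorial_pos (i + 1)
  omega

theorem mem_QQ (q : ℕ → ℕ) (w : ℕ) (h1 : ∀ i, q i < 4) (h2 : ∀ i, i ≠ w → q i / 2 = 0) :
    q ∈ QQ := by
  refine ⟨fun i => lt_of_lt_of_le (h1 i) (four_le_M i), ?_⟩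
  intro A _ η hη
  refine Set.Finite.subset (Set.finite_singleton w) ?_
  rintro t ⟨_, ht⟩
  by_contra hne
  rw [Set.mem_singleton_iff] at hne
  rw [gam_eq_zero q t (h2 t hne), norm_zero] at ht
  linarith

theorem sep : S_AV → S_NU0 → S_LOC → S_SEP := by
  intro hAV hNU hLOC k hk hk0
  have hne : k.support.Nonempty := Finsupp.support_nonempty_iff.2 hk0
  set w : ℕ := k.support.max' hne with hw
  have hwm : w ∈ k.support := Finset.max'_mem _ _
  have hsum : Summable (({w} : Set ℕ).indicator nu) := by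
    apply summable_of_finite_support
    refine Set.Finite.subset (Set.finite_singleton w) ?_
    exact Set.support_indicator_subset
  have hts : (∑' t, ({w} : Set ℕ).indicator nu t) < 1 := by
    rw [tsum_eq_single w]
    · rw [Set.indicator_of_mem (Set.mem_singleton w)]
      exact hNU.2.1 w
    · intro t ht
      exact Set.indicator_of_notMem (by simpa using ht) nu
  obtain ⟨ε, hε, hx⟩ := hAV {w} hsum hts
  let q1 : ℕ → ℕ := fun i => 2 * (if i = w then 1 else 0) + ε i
  let q0 : ℕ → ℕ := ε
  have hq1 : q1 ∈ QQ := by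
    apply mem_QQ q1 w
    · intro i
      have := hε i
      show 2 * (if i = w then 1 else 0) + ε i < 4
      split_ifs <;> omega
    · intro i hi
      have := hε i
      show (2 * (if i = w then 1 else 0) + ε i) / 2 = 0
      rw [if_neg hi]
      omega
  have hq0 : q0 ∈ QQ := by
    apply mem_QQ q0 w
    · intro i
      have := hε i
      show ε i < 4
      omega
    · intro i hi
      have := hε i
      show ε i / 2 = 0
      omega
  have e1 : x q1 w = ((((1 : ℝ) / (N w : ℝ)) : ℝ) : TT) := by
    rw [hx w rfl q1 (fun i => by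
      have := hε i
      show (2 * (if i = w then 1 else 0) + ε i) % 2 = ε i
      omega)]
    unfold gam
    have : q1 w / 2 = 1 := by
      have := hε w
      show (2 * (if w = w then 1 else 0) + ε w) / 2 = 1
      rw [if_pos rfl]
      omega
    rw [this, Nat.cast_one]
  have e0 : x q0 w = 0 := by
    rw [hx w rfl q0 (fun i => by
      have := hε i
      show ε i % 2 = ε i
      omega)]
    apply gam_eq_zero
    have := hε w
    show ε w / 2 = 0
    omega
  have hlow : ∀ t ∈ k.support, t ≠ w → x q1 t = x q0 t := by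
    intro t ht htw
    have hle : t ≤ w := Finset.le_max' _ _ ht
    apply hLOC
    intro i hi
    show 2 * (if i = w then 1 else 0) + ε i = ε i
    rw [if_neg (by omega)]
    omega
  have hdiff : pr k (x q1) - pr k (x q0) = k w • ((((1 : ℝ) / (N w : ℝ)) : ℝ) : TT) := by
    unfold pr
    rw [Finsupp.sum, Finsupp.sum, ← Finset.sum_sub_distrib]
    rw [Finset.sum_eq_single_of_mem w hwm]
    · rw [e1, e0, smul_zero, sub_zero]
    · intro t ht htw
      rw [hlow t ht htw, sub_self]
  have hkw : k w ≠ 0 := Finsupp.mem_support_iff.1 hwm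
  have hN : 0 < N w := by unfold N; positivity
  have hnz : k w • ((((1 : ℝ) / (N w : ℝ)) : ℝ) : TT) ≠ 0 := by
    intro h
    rw [← AddCircle.coe_zsmul] at h
    have h' : (((k w • ((1 : ℝ) / (N w : ℝ))) : ℝ) : AddCircle (1 : ℝ)) = 0 := h
    rw [AddCircle.coe_eq_zero_iff] at h'
    obtain ⟨n, hn⟩ := h'
    have hNr : (0 : ℝ) < (N w : ℝ) := by exact_mod_cast hN
    rw [zsmul_eq_mul, zsmul_eq_mul, mul_one] at hn
    have h2 : (n : ℝ) * (N w : ℝ) = (k w : ℝ) := by
      rw [hn]
      field_simp
    have h3 : n * (N w : ℤ) = k w := by exact_mod_cast h2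
    obtain ⟨hr1, hr2⟩ := hk w
    have hNz : (0 : ℤ) < (N w : ℤ) := by exact_mod_cast hN
    rcases lt_trichotomy n 0 with hlt | heq | hgt
    · have : n * (N w : ℤ) ≤ -1 * (N w : ℤ) := mul_le_mul_of_nonneg_right (by omega) hNz.le
      linarith
    · rw [heq, zero_mul] at h3
      exact hkw h3.symm
    · have : 1 * (N w : ℤ) ≤ n * (N w : ℤ) := mul_le_mul_of_nonneg_right (by omega) hNz.le
      linarith
  by_cases hz : pr k (x q1) = 0
  · refine ⟨x q0, AddSubgroup.subset_closure ⟨q0, hq0, rfl⟩, ?_⟩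
    intro hz0
    rw [hz, hz0, sub_zero] at hdiff
    exact hnz hdiff.symm
  · exact ⟨x q1, AddSubgroup.subset_closure ⟨q1, hq1, rfl⟩, hz⟩

end

end Pool.Agent.W856.RP
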